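import Pool.Agent.Q113.LP.Main

/-! The cop number is sublinear in the length of a longest path. -/

set_option autoImplicit false
open scoped Classical
open N6ef48c04
open Pool.Agent.Q113.LP

namespace Pool.Agent.Results.MP_8941bc_co.Sublinear

/-- The longest path of `G` has length `p`: `G` contains a path on `p` vertices but none on more
than `p` vertices. -/
def LongestPath {V : Type} (G : SimpleGraph V) (p : ℕ) : Prop :=
  (∃ (u v : V) (w : G.Walk u v), w.IsPath ∧ w.support.length = p) ∧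
    ∀ (u v : V) (w : G.Walk u v), w.IsPath → w.support.length ≤ p

theorem bound (V : Type) [Fintype V] (G : SimpleGraph V) (p : ℕ) (hG : G.Connected)
    (hp : LongestPath G p) :
    (copNumber G : ℝ) ≤ 10 ^ 9 * (p : ℝ) ^ (6 / 7 : ℝ) * (1 + Real.log p) ^ 3 := by
  have hp1 : 1 ≤ p := by
    obtain ⟨y⟩ := hG.nonempty
    have := hp.2 y y SimpleGraph.Walk.nil SimpleGraph.Walk.IsPath.nil
    simpa using this
  have hpr : (1 : ℝ) ≤ p := by exact_mod_cast hp1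
  have hp0 : (0 : ℝ) ≤ p := by linarith
  obtain ⟨x, hx⟩ : ∃ x : ℝ, x = (p : ℝ) ^ (1 / 7 : ℝ) := ⟨_, rfl⟩
  have hx1 : 1 ≤ x := by rw [hx]; exact Real.one_le_rpow hpr (by norm_num)
  have hx7 : x ^ 7 = p := by
    rw [hx, ← Real.rpow_natCast, ← Real.rpow_mul hp0]; norm_num
  have hx6 : x ^ 6 = (p : ℝ) ^ (6 / 7 : ℝ) := by
    rw [hx, ← Real.rpow_natCast, ← Real.rpow_mul hp0]; norm_num
  obtain ⟨t, ht⟩ : ∃ t : ℕ, t = ⌈x⌉₊ := ⟨_, rfl⟩
  have hxt : x ≤ t := by rw [ht]; exact Nat.le_ceil x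
  have htx : (t : ℝ) ≤ 2 * x := by
    have := Nat.ceil_lt_add_one (show 0 ≤ x by linarith)
    rw [ht]; linarith
  have ht1 : 1 ≤ t := by
    have : (1 : ℝ) ≤ t := hx1.trans hxt
    exact_mod_cast this
  have hpt : p ≤ t ^ 7 := by
    have : (p : ℝ) ≤ (t : ℝ) ^ 7 := by
      rw [← hx7]
      gcongr
    exact_mod_cast this
  have hs : t < 2 ^ (Nat.log 2 t + 1) := Nat.lt_pow_succ_log_self (by norm_num) t
  have hb := bound_nat t (Nat.log 2 t + 1) p ht1 (by omega) hs hpt V G hG hp.2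
  have hlog0 : 0 ≤ Real.log p := Real.log_nonneg hpr
  have hsl : ((Nat.log 2 t + 1 : ℕ) : ℝ) ≤ 2 * (1 + Real.log p) := by
    have h1 : 2 ^ Nat.log 2 t ≤ t := Nat.pow_log_le_self 2 (by omega)
    have h2 : (2 : ℝ) ^ Nat.log 2 t ≤ 2 * x := le_trans (by exact_mod_cast h1) htx
    have h3 := Real.log_le_log (by positivity) h2
    rw [Real.log_pow, Real.log_mul (by norm_num) (by linarith), hx,
      Real.log_rpow (by linarith)] at h3
    have h4 : (0.69 : ℝ) < Real.log 2 := lt_trans (by norm_num) Real.log_two_gt_d9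
    have h5 : ((Nat.log 2 t : ℕ) : ℝ) ≤ 1 + Real.log p := by
      by_contra hcon
      push Not at hcon
      have h6 : (1 + Real.log p) * Real.log 2 < (Nat.log 2 t : ℕ) * Real.log 2 :=
        mul_lt_mul_of_pos_right hcon (by linarith)
      nlinarith
    push_cast
    linarith
  have ht6 : (t : ℝ) ^ 6 ≤ 64 * (p : ℝ) ^ (6 / 7 : ℝ) := by
    rw [← hx6]
    calc (t : ℝ) ^ 6 ≤ (2 * x) ^ 6 := by gcongr
      _ = 64 * x ^ 6 := by ring
  have hb' : (copNumber G : ℝ) ≤ 10 ^ 6 * ((Nat.log 2 t + 1 : ℕ) : ℝ) ^ 3 * (t : ℝ) ^ 6 := by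
    exact_mod_cast hb
  have hpos : 0 ≤ (p : ℝ) ^ (6 / 7 : ℝ) := by positivity
  have hpos2 : 0 ≤ (1 + Real.log p) ^ 3 := by positivity
  calc (copNumber G : ℝ) ≤ 10 ^ 6 * ((Nat.log 2 t + 1 : ℕ) : ℝ) ^ 3 * (t : ℝ) ^ 6 := hb'
    _ ≤ 10 ^ 6 * (2 * (1 + Real.log p)) ^ 3 * (64 * (p : ℝ) ^ (6 / 7 : ℝ)) := by gcongr
    _ = 512000000 * ((p : ℝ) ^ (6 / 7 : ℝ) * (1 + Real.log p) ^ 3) := by ring
    _ ≤ 10 ^ 9 * ((p : ℝ) ^ (6 / 7 : ℝ) * (1 + Real.log p) ^ 3) := by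
        gcongr
        norm_num
    _ = 10 ^ 9 * (p : ℝ) ^ (6 / 7 : ℝ) * (1 + Real.log p) ^ 3 := by ring

theorem small (ε : ℝ) (hε : 0 < ε) : ∃ p : ℕ, 1 ≤ p ∧
    10 ^ 9 * (p : ℝ) ^ (6 / 7 : ℝ) * (1 + Real.log p) ^ 3 < ε * p := by
  obtain ⟨C, hC⟩ : ∃ C : ℝ, C = 10 ^ 9 * 43 ^ 3 / ε + 1 := ⟨_, rfl⟩
  have hCpos : 1 ≤ C := by
    rw [hC]
    have : 0 ≤ 10 ^ 9 * 43 ^ 3 / ε := by positivity
    linarith
  obtain ⟨p, hp⟩ := exists_nat_ge (C ^ 14)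
  have hpr : (1 : ℝ) ≤ p := (one_le_pow₀ hCpos).trans hp
  have hp0 : (0 : ℝ) ≤ p := by linarith
  refine ⟨p, by exact_mod_cast hpr, ?_⟩
  obtain ⟨y, hy⟩ : ∃ y : ℝ, y = (p : ℝ) ^ (1 / 42 : ℝ) := ⟨_, rfl⟩
  have hy1 : 1 ≤ y := by rw [hy]; exact Real.one_le_rpow hpr (by norm_num)
  have hy42 : y ^ 42 = p := by
    rw [hy, ← Real.rpow_natCast, ← Real.rpow_mul hp0]; norm_num
  have hy36 : y ^ 36 = (p : ℝ) ^ (6 / 7 : ℝ) := by
    rw [hy, ← Real.rpow_natCast, ← Real.rpow_mul hp0]; norm_num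
  have hlog : Real.log p ≤ 42 * y := by
    have := Real.log_le_rpow_div hp0 (show (0 : ℝ) < 1 / 42 by norm_num)
    rw [← hy] at this
    linarith
  have hlog0 : 0 ≤ Real.log p := Real.log_nonneg hpr
  have hCy : C ≤ y ^ 3 := by
    have h1 : C ^ 14 ≤ (y ^ 3) ^ 14 := by
      rw [← pow_mul, show 3 * 14 = 42 by norm_num, hy42]
      exact hp
    exact (pow_le_pow_iff_left₀ (by linarith) (by positivity) (by norm_num)).1 h1
  calc 10 ^ 9 * (p : ℝ) ^ (6 / 7 : ℝ) * (1 + Real.log p) ^ 3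
      ≤ 10 ^ 9 * y ^ 36 * (43 * y) ^ 3 := by
        rw [← hy36]
        gcongr
        linarith
    _ = ε * (10 ^ 9 * 43 ^ 3 / ε) * y ^ 39 := by
        field_simp
    _ < ε * C * y ^ 39 := by
        have : 10 ^ 9 * 43 ^ 3 / ε < C := by rw [hC]; linarith
        gcongr
    _ ≤ ε * y ^ 3 * y ^ 39 := by gcongr
    _ = ε * p := by rw [← hy42]; ring

/-- The cop number of a connected graph whose longest path has `p` vertices is
`O(p ^ (6 / 7) (log p) ^ 3)`; in particular Q1 has a negative answer. -/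
theorem result :
    (∀ (V : Type) [Fintype V] (G : SimpleGraph V) (p : ℕ), G.Connected → LongestPath G p →
      (copNumber G : ℝ) ≤ 10 ^ 9 * (p : ℝ) ^ (6 / 7 : ℝ) * (1 + Real.log p) ^ 3) ∧
    ¬ ∃ ε : ℝ, 0 < ε ∧ ∀ p : ℕ, 1 ≤ p → ∃ (V : Type) (_ : Fintype V) (G : SimpleGraph V),
      G.Connected ∧ LongestPath G p ∧ ε * p ≤ copNumber G := by
  refine ⟨bound, ?_⟩
  rintro ⟨ε, hε, h⟩
  obtain ⟨p, hp1, hp⟩ := small ε hε
  obtain ⟨V, _, G, hG, hL, hc⟩ := h p hp1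
  have := bound V G p hG hL
  linarith

end Pool.Agent.Results.MP_8941bc_co.Sublinear
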